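import Mathlib

/-!
# Project SF (MP_d5570f_nt): sets with squarefree sumset.  Statements of the pieces.
Not imported by any result.
-/

open Finset

namespace Pool.Agent.Helper94.SF.Spec

/-! ### SF-1: Parseval on `ZMod m` -/

theorem parseval {m : ℕ} [NeZero m] (F : ZMod m → ℝ) :
    ∑ j : ZMod m, ‖∑ y : ZMod m, ZMod.stdAddChar (j * y) * (F y : ℂ)‖ ^ 2
      = (m : ℝ) * ∑ y : ZMod m, F y ^ 2 := sorry

/-! ### SF-2: Chinese remainder theorem for characters -/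

theorem exists_units {ι : Type*} [Fintype ι] [DecidableEq ι] (m : ι → ℕ) [∀ i, NeZero (m i)]
    (hc : ∀ i j, i ≠ j → Nat.Coprime (m i) (m j)) :
    ∃ u : ι → ℤ,
      (∀ i, ((u i * ∏ j ∈ Finset.univ.erase i, (m j : ℤ) : ℤ) : ZMod (m i)) = 1) ∧
      ∀ n : ℤ, ∏ i, ZMod.stdAddChar ((u i * n : ℤ) : ZMod (m i))
        = Complex.exp (2 * Real.pi * Complex.I * n / ((∏ i, m i : ℕ) : ℂ)) := sorry

/-! ### SF-3: few integers with a given square modulo `p ^ 2` -/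

theorem fibre_count (p : ℕ) (hp : p.Prime) (hp2 : p ≠ 2) (b : ℤ) (hb : ¬ (p : ℤ) ∣ b)
    (j : ZMod (p ^ 2)) (K : ℕ) (T : Finset ℕ)
    (hT : ∀ n ∈ T, n ≤ K * p ^ 2 ∧ (n : ZMod (p ^ 2)) ^ 2 * j = (b : ZMod (p ^ 2))) :
    T.card ≤ 2 * (K + 1) := sorry

/-! ### SF-4: products of three primes determine them -/

theorem triple_count (P L : Finset ℕ) (hP : ∀ p ∈ P, p.Prime) (hL : ∀ l ∈ L, l.Prime)
    (hd : Disjoint P L) (n : ℕ) :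
    ((P ×ˢ L ×ˢ L).filter (fun w => w.1 * w.2.1 * w.2.2 = n)).card ≤ 2 := sorry

/-! ### SF-5: primes in `(x / 4, x]` -/

theorem primes_count : ∃ x₀ : ℕ, ∀ x : ℕ, x₀ ≤ x →
    (x : ℝ) / (4 * Real.log x)
      ≤ (((Finset.Icc 1 x).filter (fun p => p.Prime ∧ x < 4 * p)).card : ℝ) := sorry

/-! ### SF-6: the Dirichlet kernel is large near `0` -/

theorem kernel_large (R N M : ℕ) (h : 8 * N * R ≤ M) (hM : 0 < M) (n : ℕ) (hn : n ≤ N) :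
    (R : ℝ) ^ 2 / 2 ≤ ‖∑ s ∈ Finset.range R,
      Complex.exp (2 * Real.pi * Complex.I * ((s * n : ℕ) : ℂ) / (M : ℂ))‖ ^ 2 := sorry

/-! ### SF-7: the numbers (`z = floor ((N / log N) ^ (1/11))`) -/

/-- From a bound for all `z` with `z ^ 11 * log N ≤ N` to the final bound. -/
theorem numerics (T : ℕ → ℝ) (h0 : ∀ N, T N ≤ (N : ℝ) ^ 2)
    (C₁ : ℝ) (z₀ : ℕ)
    (h : ∀ N z : ℕ, z₀ ≤ z → (z : ℝ) ^ 11 * Real.log N ≤ N → z ≤ N →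
      T N ≤ C₁ * (N : ℝ) ^ 2 * Real.log N ^ 4 / (z : ℝ) ^ 6) :
    ∃ C : ℝ, 0 < C ∧ ∀ N : ℕ, 2 ≤ N →
      T N ≤ C * (N : ℝ) ^ (16 / 11 : ℝ) * Real.log N ^ (50 / 11 : ℝ) := sorry

end Pool.Agent.Helper94.SF.Spec
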